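import Pool.Agent.H83.X.T1

/-!
SMP: the mean of a trigonometric polynomial over the residues modulo `P`.
-/

set_option autoImplicit false

open Finset Filter Topology

namespace Pool.Agent.H49.X

open Pool.Agent.H83.X
open Pool.Agent.H24.AG (ee)

/-- the value of a trigonometric polynomial -/
theorem ev_val {a : ℕ} (α : Fin a → ℝ) (n : ℕ) (x : AddMonoidAlgebra ℂ (Fin a → ℤ)) :
    ev α n x = ∑ k ∈ x.coeff.support, x.coeff k * ee (n * ∑ i, (k i : ℝ) * α i) := by
  unfold ev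
  rw [AddMonoidAlgebra.lift_apply]
  rfl

/-- a vanishing sum of small digits -/
theorem dig_zero : ∀ (a : ℕ) (B : ℕ) (k : Fin a → ℤ), (∀ i, 2 * |k i| < B) →
    ∑ i, k i * (B : ℤ) ^ (i : ℕ) = 0 → k = 0
  | 0, B, k, _, _ => by
      funext i
      exact i.elim0
  | a + 1, B, k, hB, h => by
      rw [Fin.sum_univ_succ] at h
      have e : ∑ i : Fin a, k i.succ * (B : ℤ) ^ ((i.succ : Fin (a + 1)) : ℕ) =
          B * ∑ i : Fin a, k i.succ * (B : ℤ) ^ (i : ℕ) := by
        rw [Finset.mul_sum]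
        refine Finset.sum_congr rfl fun i _ => ?_
        rw [Fin.val_succ, pow_succ]
        ring
      have h0 : k 0 * (B : ℤ) ^ ((0 : Fin (a + 1)) : ℕ) = k 0 := by simp
      rw [e, h0] at h
      have hd : (B : ℤ) ∣ k 0 :=
        ⟨-∑ i : Fin a, k i.succ * (B : ℤ) ^ (i : ℕ), by linarith⟩
      have hb := hB 0
      have ha := abs_nonneg (k 0)
      have hk0 : k 0 = 0 := Int.eq_zero_of_abs_lt_dvd hd (by linarith)
      rw [hk0, abs_zero] at hb
      have hS : ∑ i : Fin a, k i.succ * (B : ℤ) ^ (i : ℕ) = 0 := by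
        rw [hk0, zero_add] at h
        rcases mul_eq_zero.1 h with h1 | h1
        · omega
        · exact h1
      have hr := dig_zero a B (fun i => k i.succ) (fun i => hB i.succ) hS
      funext i
      refine Fin.cases hk0 (fun j => congrFun hr j) i

theorem ee_nat_mul (j : ℕ) (y : ℝ) : ee (j * y) = ee y ^ j := by
  unfold ee
  rw [← Complex.exp_nat_mul]
  congr 1
  push_cast
  ring

theorem ee_eq_one {y : ℝ} : ee y = 1 ↔ ∃ m : ℤ, y = m := by
  unfold ee
  rw [Complex.exp_eq_one_iff]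
  have hp : (2 * (Real.pi : ℂ) * Complex.I) ≠ 0 := by
    simp [Real.pi_ne_zero]
  constructor
  · rintro ⟨m, hm⟩
    refine ⟨m, ?_⟩
    have h1 : (2 * (Real.pi : ℂ) * Complex.I) * (y : ℂ) = (2 * (Real.pi : ℂ) * Complex.I) * m := by
      rw [hm]
      ring
    have h2 := mul_left_cancel₀ hp h1
    exact_mod_cast h2
  · rintro ⟨m, rfl⟩
    refine ⟨m, ?_⟩
    push_cast
    ring

/-- the geometric sum -/
theorem geo {P : ℕ} {s : ℤ} (h : |s| < P) :
    ∑ j ∈ range P, ee (j * ((s : ℝ) / P)) = if s = 0 then (P : ℂ) else 0 := by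
  have hP : 0 < P := by
    have := abs_nonneg s
    omega
  split_ifs with hs
  · rw [hs]
    simp [ee_zero]
  · have hz : ee ((s : ℝ) / P) ≠ 1 := by
      intro hc
      obtain ⟨m, hm⟩ := ee_eq_one.1 hc
      have hPr : (P : ℝ) ≠ 0 := by exact_mod_cast hP.ne'
      rw [div_eq_iff hPr] at hm
      have hm' : s = m * P := by exact_mod_cast hm
      have hd : (P : ℤ) ∣ s := ⟨m, by rw [hm']; ring⟩
      exact hs (Int.eq_zero_of_abs_lt_dvd hd h)
    have hzP : ee ((s : ℝ) / P) ^ P = 1 := by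
      rw [← ee_nat_mul, mul_div_cancel₀]
      · exact ee_eq_one.2 ⟨s, rfl⟩
      · exact_mod_cast hP.ne'
    have e : ∑ j ∈ range P, ee (j * ((s : ℝ) / P)) = ∑ j ∈ range P, ee ((s : ℝ) / P) ^ j :=
      Finset.sum_congr rfl fun j _ => ee_nat_mul j _
    rw [e, geom_sum_eq hz, hzP, sub_self, zero_div]

theorem pf_SMP : T_SMP := by
  classical
  intro a F
  set K : Finset (Fin a → ℤ) := F.biUnion (fun x => x.coeff.support) with hK
  set M : ℕ := ∑ k ∈ K, ∑ i, (k i).natAbs with hM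
  have hM' : ∀ k ∈ K, ∀ i, (k i).natAbs ≤ M := by
    intro k hk i
    refine le_trans ?_ (Finset.single_le_sum (f := fun k : Fin a → ℤ => ∑ i, (k i).natAbs)
      (fun _ _ => Nat.zero_le _) hk)
    exact Finset.single_le_sum (f := fun i => (k i).natAbs) (fun _ _ => Nat.zero_le _)
      (Finset.mem_univ i)
  set ψ : (Fin a → ℤ) → ℤ := fun k => ∑ i, k i * ((2 * M + 1 : ℕ) : ℤ) ^ (i : ℕ) with hψ
  have hψ0 : ∀ k ∈ K, ψ k = 0 → k = 0 := by
    intro k hk h
    refine dig_zero a (2 * M + 1) k (fun i => ?_) h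
    have h1 := hM' k hk i
    rw [Int.abs_eq_natAbs]
    omega
  refine ⟨2 * M + 1, ∑ k ∈ K, (ψ k).natAbs + 1, Nat.succ_pos _, ?_⟩
  intro P hP x hx
  have hlt : ∀ k ∈ K, |ψ k| < P := by
    intro k hk
    have := Finset.single_le_sum (f := fun k => (ψ k).natAbs) (fun _ _ => Nat.zero_le _) hk
    rw [Int.abs_eq_natAbs]
    omega
  have hsub : ∀ k ∈ x.coeff.support, k ∈ K := fun k hk =>
    Finset.mem_biUnion.2 ⟨x, hx, hk⟩
  have hP0 : (P : ℂ) ≠ 0 := by
    have : P ≠ 0 := by omega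
    exact_mod_cast this
  have e1 : ∀ j ∈ range P, ev (fun i : Fin a => (((2 * M + 1 : ℕ) : ℝ)) ^ (i : ℕ) / P) j x =
      ∑ k ∈ x.coeff.support, x.coeff k * ee (j * ((ψ k : ℝ) / P)) := by
    intro j _
    rw [ev_val]
    refine Finset.sum_congr rfl fun k _ => ?_
    congr 3
    rw [hψ]
    push_cast
    rw [Finset.sum_div]
    refine Finset.sum_congr rfl fun i _ => ?_
    ring
  rw [Finset.sum_congr rfl e1, Finset.sum_comm]
  have e2 : ∀ k ∈ x.coeff.support, ∑ j ∈ range P, x.coeff k * ee (j * ((ψ k : ℝ) / P)) =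
      if k = 0 then x.coeff 0 * P else 0 := by
    intro k hk
    rw [← Finset.mul_sum, geo (hlt k (hsub k hk))]
    by_cases hk0 : k = 0
    · subst hk0
      have h0 : ψ 0 = 0 := by
        rw [hψ]
        simp
      rw [if_pos h0, if_pos rfl]
    · rw [if_neg hk0, if_neg (fun h => hk0 (hψ0 k (hsub k hk) h)), mul_zero]
  rw [Finset.sum_congr rfl e2, Finset.sum_ite_eq']
  split_ifs with h
  · field_simp
  · rw [Finsupp.notMem_support_iff.1 h, zero_div]

end Pool.Agent.H49.X
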